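import Pool.Agent.Helper75.Torus.Goals

set_option autoImplicit false

/-!
# The pairing is almost conserved (packet TORUS-EVO)
-/

open Set MeasureTheory Matrix

namespace Pool.Agent.Helper83.Torus.EVO

open Pool.Agent.Helper75.Torus
open Pool.Agent.Helper75.Flow (LipField IsFlow IsJac EulerOn curlL)

theorem cont_cross {S : Set ℝ} {a b : ℝ → E} (ha : ContinuousOn a S) (hb : ContinuousOn b S) :
    ContinuousOn (fun s => crossProduct (a s) (b s)) S := by
  have ha' : ∀ i, ContinuousOn (fun s => a s i) S := fun i =>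
    (continuous_apply i).comp_continuousOn ha
  have hb' : ∀ i, ContinuousOn (fun s => b s i) S := fun i =>
    (continuous_apply i).comp_continuousOn hb
  rw [continuousOn_pi]
  intro i
  fin_cases i
  · have h : (fun s => crossProduct (a s) (b s) 0) = fun s => a s 1 * b s 2 - a s 2 * b s 1 := by
      funext s; simp [cross_apply]
    show ContinuousOn (fun s => crossProduct (a s) (b s) 0) S
    rw [h]
    exact ((ha' 1).mul (hb' 2)).sub ((ha' 2).mul (hb' 1))
  · have h : (fun s => crossProduct (a s) (b s) 1) = fun s => a s 2 * b s 0 - a s 0 * b s 2 := by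
      funext s; simp [cross_apply]
    show ContinuousOn (fun s => crossProduct (a s) (b s) 1) S
    rw [h]
    exact ((ha' 2).mul (hb' 0)).sub ((ha' 0).mul (hb' 2))
  · have h : (fun s => crossProduct (a s) (b s) 2) = fun s => a s 0 * b s 1 - a s 1 * b s 0 := by
      funext s; simp [cross_apply]
    show ContinuousOn (fun s => crossProduct (a s) (b s) 2) S
    rw [h]
    exact ((ha' 0).mul (hb' 1)).sub ((ha' 1).mul (hb' 0))

theorem cont_dot {S : Set ℝ} {a b : ℝ → E} (ha : ContinuousOn a S) (hb : ContinuousOn b S) :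
    ContinuousOn (fun s => a s ⬝ᵥ b s) S := by
  have ha' : ∀ i, ContinuousOn (fun s => a s i) S := fun i =>
    (continuous_apply i).comp_continuousOn ha
  have hb' : ∀ i, ContinuousOn (fun s => b s i) S := fun i =>
    (continuous_apply i).comp_continuousOn hb
  unfold dotProduct
  exact continuousOn_finsetSum _ fun i _ => (ha' i).mul (hb' i)

theorem cont_cofv {S : Set ℝ} {J : ℝ → E →L[ℝ] E} (hJ : ContinuousOn J S) (κ : E) :
    ContinuousOn (fun s => cofv (J s) κ) S := by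
  have h1 : ∀ v : E, ContinuousOn (fun s => J s v) S := fun v =>
    hJ.clm_apply continuousOn_const
  have h2 : ∀ (r : ℝ) (v w : E),
      ContinuousOn (fun s => r • (crossProduct (J s v) (J s w) : E)) S := fun r v w =>
    (cont_cross (h1 v) (h1 w)).const_smul r
  unfold cofv
  exact ((h2 (κ 0) (ee 1) (ee 2)).add (h2 (κ 1) (ee 2) (ee 0))).add (h2 (κ 2) (ee 0) (ee 1))

theorem cont_trn {S : Set ℝ} {J : ℝ → E →L[ℝ] E} (hJ : ContinuousOn J S) {z : ℝ → E}
    (hz : ContinuousOn z S) : ContinuousOn (fun s => trn (J s) (z s)) S := by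
  unfold trn
  rw [continuousOn_pi]
  intro i
  exact cont_dot hz (hJ.clm_apply continuousOn_const)

theorem cont_bRHS (hCOF : G_COF) {S : Set ℝ} {J : ℝ → E →L[ℝ] E} (hJ : ContinuousOn J S)
    (hdet : ∀ s ∈ S, (J s).det = 1) {b : ℝ → E} (hb : ContinuousOn b S) (c : ℝ) (κ : E)
    (hκ : κ ⬝ᵥ κ = 1) : ContinuousOn (fun s => bRHS c (J s) κ (b s)) S := by
  have hκ0 : κ ≠ 0 := by
    rintro rfl
    simp at hκ
  unfold bRHS
  have hcof := cont_cofv hJ κ
  have hne : ∀ s ∈ S, cofv (J s) κ ⬝ᵥ cofv (J s) κ ≠ 0 := by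
    intro s hs h0
    have h := (hCOF (J s) (hdet s hs)).2.2.2.2.2.2.2 κ hκ0
    unfold nn at h
    rw [h0] at h
    simp at h
  exact ((continuousOn_const.div (cont_dot hcof hcof) hne).neg).smul
    (cont_cross continuousOn_const (cont_trn hJ (hJ.clm_apply hb)))

theorem bdd_of_cont {F : Type*} [SeminormedAddCommGroup F] {t : ℝ} {f : ℝ → F}
    (hf : ContinuousOn f (Icc 0 t)) : ∃ B : ℝ, 0 ≤ B ∧ ∀ s ∈ Icc 0 t, ‖f s‖ ≤ B := by
  obtain ⟨B, hB⟩ := isCompact_Icc.exists_bound_of_continuousOn hf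
  exact ⟨max B 0, le_max_right _ _, fun s hs => (hB s hs).trans (le_max_left _ _)⟩

theorem thm (hCOF : G_COF) (hEVD : G_EVD) (hEVB : G_EVB) : G_EVO := by
  intro α t K u g p φ J η hα hα1 ht hL hη X κ β hκ hβ
  have hK : 0 ≤ K := hL.euler.2.1.1
  have hJc : ContinuousOn (fun s => J s X) (Icc 0 t) := by
    have h := hL.jcont.comp (f := fun s : ℝ => (s, X)) (s := Icc 0 t)
      (by fun_prop) (fun s hs => ⟨hs, mem_univ _⟩)
    exact h
  have hβc : ContinuousOn β (Icc 0 t) := fun s hs => (hβ.1 s hs).continuousWithinAt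
  have hbc := cont_bRHS hCOF hJc (fun s hs => hL.jdet X s hs) hβc
    (κ ⬝ᵥ curlL (fderiv ℝ (u 0) X)) κ hκ
  obtain ⟨B₁, hB₁, hJb⟩ := bdd_of_cont hJc
  obtain ⟨B₂, hB₂, hβb⟩ := bdd_of_cont hβc
  obtain ⟨B₃, hB₃, hbb⟩ := bdd_of_cont hbc
  set om : E := curlL (fderiv ℝ (u 0) X) with hom
  have hB0 : 0 ≤ B₁ + B₂ + B₃ + ‖om‖ := by positivity
  obtain ⟨C, hC⟩ := hEVB α η κ K (B₁ + B₂ + B₃ + ‖om‖) hα hα1 hη hκ hK hB0
  refine ⟨C * t, fun δ hδ => ?_⟩
  obtain ⟨D, hD⟩ := hC δ hδ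
  refine ⟨D * t, fun lam hlam τ => ?_⟩
  have hlam0 : 0 < lam := lt_of_lt_of_le one_pos hlam
  have hder : ∀ s ∈ Icc 0 t, HasDerivWithinAt
      (fun s => δ ^ 3 * lam ^ (1 + α) *
        ∫ Y, u s (φ s X + lam⁻¹ • J s X Y) ⬝ᵥ J s X (Tf η κ δ τ (β s) Y))
      (δ ^ 3 * lam ^ (1 + α) * rhs η (u s) (φ s X) om κ (J s X) lam δ τ (β s)
        (bRHS (κ ⬝ᵥ om) (J s X) κ (β s))) (Icc 0 t) s := by
    intro s hs
    exact (hEVD α t K u g p φ J η ht hL hη X κ lam δ τ β hκ hlam0 hδ hβ s hs).const_mul _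
  have hbd : ∀ s ∈ Icc 0 t,
      ‖δ ^ 3 * lam ^ (1 + α) * rhs η (u s) (φ s X) om κ (J s X) lam δ τ (β s)
        (bRHS (κ ⬝ᵥ om) (J s X) κ (β s))‖ ≤ C * δ + D * lam ^ (-α) := by
    intro s hs
    rw [Real.norm_eq_abs]
    refine hD (u s) (φ s X) om (β s) _ (J s X) lam τ (fun i => hL.hol s hs i) (hL.jdet X s hs)
      ?_ ?_ ?_ ?_ hlam
    · have := hJb s hs; have := norm_nonneg om; linarith
    · linarith
    · have := hβb s hs; have := norm_nonneg om; linarith
    · have := hbb s hs; have := norm_nonneg om; linarith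
  have hmv := Convex.norm_image_sub_le_of_norm_hasDerivWithin_le hder hbd (convex_Icc 0 t)
    (left_mem_Icc.mpr ht) (right_mem_Icc.mpr ht)
  have hφ0 : φ 0 X = X := hL.flow.1 X
  have hJ0 : J 0 X = ContinuousLinearMap.id ℝ E := (hL.jac X (mem_univ _)).1
  rw [Real.norm_eq_abs, Real.norm_eq_abs, sub_zero, abs_of_nonneg ht] at hmv
  simp only [hφ0, hJ0] at hmv
  unfold pair
  calc _ ≤ (C * δ + D * lam ^ (-α)) * t := hmv
    _ = C * t * δ + D * t * lam ^ (-α) := by ring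

end Pool.Agent.Helper83.Torus.EVO
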